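import Pool.Agent.Helper509.OH.Kappa

/-!
# MP_814c9d_an, Q1: the answer is negative for every infinite cardinal `κ`

For every infinite cardinal `κ` there is a `κ`-octahedral real Banach space without a closed
subspace isomorphic to `ℓ₁(κ⁺)`; the space even contains no copy of `ℓ₁(I)` for any uncountable
set `I`.  The space is `X = (⨁ₙ ℓ_{pₙ}(Γ))_{ℓ₁}` with `pₙ = 1 + 1/(n+1)` and `card Γ = κ⁺`.
-/

set_option autoImplicit false

open Cardinal
open scoped ENNReal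

universe u v

namespace Pool.Agent.Results.MP_814c9d_an.NoEll1

/-- `dens(Y) ≤ κ`: the subspace `Y` has a dense subset of cardinality at most `κ`. -/
def DensLE (κ : Cardinal.{u}) {X : Type u} [NormedAddCommGroup X] [NormedSpace ℝ X]
    (Y : Submodule ℝ X) : Prop :=
  ∃ D : Set Y, Dense D ∧ Cardinal.mk D ≤ κ

/-- `X` is `κ`-octahedral: for each `ε > 0` and each subspace `Y` with `dens(Y) ≤ κ` there is
`x ∈ S_X` with `‖λ x + y‖ ≥ (1 - ε) (|λ| + ‖y‖)` for all `λ ∈ ℝ`, `y ∈ Y`. -/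
def KappaOctahedral (κ : Cardinal.{u}) (X : Type u) [NormedAddCommGroup X] [NormedSpace ℝ X] :
    Prop :=
  ∀ ε : ℝ, 0 < ε → ∀ Y : Submodule ℝ X, DensLE κ Y →
    ∃ x : X, ‖x‖ = 1 ∧ ∀ (l : ℝ), ∀ y ∈ Y, (1 - ε) * (|l| + ‖y‖) ≤ ‖l • x + y‖

/-- `X` contains an isomorphic copy of `E`: some closed subspace of `X` is linearly homeomorphic
to `E`. -/
def ContainsCopy (E : Type v) [NormedAddCommGroup E] [NormedSpace ℝ E]
    (X : Type u) [NormedAddCommGroup X] [NormedSpace ℝ X] : Prop :=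
  ∃ F : Submodule ℝ X, IsClosed (F : Set X) ∧ Nonempty (E ≃L[ℝ] F)

lemma no_copy {Γ : Type u} {I : Type v} (hI : Uncountable I) :
    ¬ ContainsCopy (lp (fun _ : I => ℝ) 1) (Helper509.OH.XX Γ) := by
  rintro ⟨F, -, ⟨φ⟩⟩
  let T : lp (fun _ : I => ℝ) 1 →L[ℝ] Helper509.OH.XX Γ :=
    F.subtypeL.comp (φ : lp (fun _ : I => ℝ) 1 →L[ℝ] F)
  have hc : (0 : ℝ) < (‖(φ.symm : F →L[ℝ] lp (fun _ : I => ℝ) 1)‖ + 1)⁻¹ := by positivity
  refine Helper509.OH.no_ell1 hI T _ hc fun x => ?_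
  have h1 := (φ.symm : F →L[ℝ] lp (fun _ : I => ℝ) 1).le_opNorm (φ x)
  have h2 : (φ.symm : F →L[ℝ] lp (fun _ : I => ℝ) 1) (φ x) = x := φ.symm_apply_apply x
  rw [h2] at h1
  have h3 : ‖T x‖ = ‖φ x‖ := rfl
  rw [h3, inv_mul_le_iff₀ (by positivity)]
  have := norm_nonneg (φ x)
  linarith

/-- For every infinite cardinal `κ` there is a `κ`-octahedral real Banach space which contains no
isomorphic copy of `ℓ₁(κ⁺)` (`lp (fun _ : I => ℝ) 1` with `card I = κ⁺`), and indeed no isomorphic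
copy of `ℓ₁(I)` for any uncountable set `I`. -/
theorem result (κ : Cardinal.{u}) (hκ : ℵ₀ ≤ κ) :
    ∃ (X : Type u) (_ : NormedAddCommGroup X) (_ : NormedSpace ℝ X) (_ : CompleteSpace X),
      KappaOctahedral κ X ∧
      (∀ I : Type u, Cardinal.mk I = Order.succ κ →
        ¬ ContainsCopy (lp (fun _ : I => ℝ) 1) X) ∧
      (∀ I : Type v, Uncountable I → ¬ ContainsCopy (lp (fun _ : I => ℝ) 1) X) := by
  let Γ : Type u := (Order.succ κ).out
  have hΓ : κ < Cardinal.mk Γ := by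
    rw [Cardinal.mk_out]; exact Order.lt_succ κ
  refine ⟨Helper509.OH.XX Γ, inferInstance, inferInstance, inferInstance, ?_, ?_,
    fun I hI => no_copy hI⟩
  · rintro ε hε Y ⟨D, hD, hDκ⟩
    have hD' : Cardinal.mk ((Subtype.val : Y → Helper509.OH.XX Γ) '' D) ≤ κ :=
      Cardinal.mk_image_le.trans hDκ
    obtain ⟨x, hx1, hx2⟩ := Helper509.OH.exists_oct κ hκ hΓ ε hε _ hD'
    refine ⟨x, hx1, fun l y hy => hx2 l y ?_⟩
    have h1 : (⟨y, hy⟩ : Y) ∈ closure D := hD _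
    exact image_closure_subset_closure_image continuous_subtype_val ⟨⟨y, hy⟩, h1, rfl⟩
  · intro I hI
    refine no_copy ?_
    rw [← not_countable_iff, ← Cardinal.mk_le_aleph0_iff, not_le, hI]
    exact hκ.trans_lt (Order.lt_succ κ)

end Pool.Agent.Results.MP_814c9d_an.NoEll1
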